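import Pool.Agent.H466.HN.Stm5

/-!
# Windows where all zeros of the backward heat flow are on the line are regular
-/

set_option autoImplicit false

namespace Pool.Agent.H551.HN

open Complex MeasureTheory Set Filter Topology
open scoped ComplexConjugate
open Pool.Agent.H466.HF Pool.Agent.H466.LD Pool.Agent.H466.HP Pool.Agent.H466.HN
open Pool.Agent.H862.VK (Yz)

/-- `log T` is as large as we please -/
lemma log_big (K : ℝ) : ∃ T0 : ℝ, 10 ≤ T0 ∧ ∀ T : ℝ, T0 ≤ T → K ≤ Real.log T := by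
  refine ⟨max 10 (Real.exp K), le_max_left _ _, fun T hT => ?_⟩
  have h1 : Real.exp K ≤ T := (le_max_right _ _).trans hT
  have h2 : 0 < T := (Real.exp_pos K).trans_le h1
  exact (Real.le_log_iff_exp_le h2).mpr h1

/-- the scaled function -/
noncomputable def hs (H : ℂ → ℂ) (t Δ g : ℝ) (ζ : ℂ) : ℂ := H ((t : ℂ) * I + (Δ : ℂ) * ζ) / (g : ℂ)

lemma hs_norm {H : ℂ → ℂ} {t Δ g : ℝ} (hg : 0 < g) (ζ : ℂ) :
    ‖hs H t Δ g ζ‖ = ‖H ((t : ℂ) * I + (Δ : ℂ) * ζ)‖ / g := by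
  unfold hs
  rw [norm_div, Complex.norm_real, Real.norm_eq_abs, abs_of_pos hg]

lemma hs_der {H : ℂ → ℂ} {t Δ g : ℝ} (hH : Differentiable ℂ H) (ζ : ℂ) :
    HasDerivAt (hs H t Δ g) (deriv H ((t : ℂ) * I + (Δ : ℂ) * ζ) * (Δ : ℂ) / (g : ℂ)) ζ := by
  have h1 : HasDerivAt (fun ζ : ℂ => (t : ℂ) * I + (Δ : ℂ) * ζ) (Δ : ℂ) ζ := by
    have h0 := ((hasDerivAt_id ζ).const_mul (Δ : ℂ)).const_add ((t : ℂ) * I)
    simpa using h0
  have h2 : HasDerivAt H (deriv H ((t : ℂ) * I + (Δ : ℂ) * ζ)) ((t : ℂ) * I + (Δ : ℂ) * ζ) :=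
    (hH _).hasDerivAt
  have h3 := h2.comp ζ h1
  exact h3.div_const (g : ℂ)

lemma hs_diff {H : ℂ → ℂ} {t Δ g : ℝ} (hH : Differentiable ℂ H) :
    Differentiable ℂ (hs H t Δ g) := fun ζ => (hs_der hH ζ).differentiableAt

lemma hs_ld {H : ℂ → ℂ} {t Δ g : ℝ} (hH : Differentiable ℂ H) (hg : 0 < g) (ζ : ℂ) :
    logDeriv (hs H t Δ g) ζ = (Δ : ℂ) * logDeriv H ((t : ℂ) * I + (Δ : ℂ) * ζ) := by
  rw [logDeriv_apply, logDeriv_apply, (hs_der hH ζ).deriv]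
  unfold hs
  have hgc : (g : ℂ) ≠ 0 := by exact_mod_cast hg.ne'
  by_cases h0 : H ((t : ℂ) * I + (Δ : ℂ) * ζ) = 0
  · rw [h0]
    simp
  · field_simp

/-- the scaled point -/
lemma sc_pt {t Δ : ℝ} (hΔ : 0 < Δ) (z : ℂ) :
    (t : ℂ) * I + (Δ : ℂ) * ((z - (t : ℂ) * I) / (Δ : ℂ)) = z := by
  have hc : (Δ : ℂ) ≠ 0 := by exact_mod_cast hΔ.ne'
  field_simp
  ring

lemma sc_re {t Δ : ℝ} (z : ℂ) : ((z - (t : ℂ) * I) / (Δ : ℂ)).re = z.re / Δ := by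
  rw [Complex.div_ofReal_re]
  simp

lemma sc_norm {t Δ : ℝ} (hΔ : 0 < Δ) (z : ℂ) :
    ‖(z - (t : ℂ) * I) / (Δ : ℂ)‖ = ‖z - (t : ℂ) * I‖ / Δ := by
  rw [norm_div, Complex.norm_real, Real.norm_eq_abs, abs_of_pos hΔ]

lemma pt_eq (t Δ : ℝ) (ζ : ℂ) : (t : ℂ) * I + (Δ : ℂ) * ζ =
    ((Δ * ζ.re : ℝ) : ℂ) + ((t + Δ * ζ.im : ℝ) : ℂ) * I := by
  apply Complex.ext <;> simp

/-- the core: one window -/
theorem core {T t μ κ3 η ηH Kc g : ℝ} {H : ℂ → ℂ} (hH : Differentiable ℂ H) (hg : 0 < g)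
    (hL : 0 < Real.log T) (hμ : 0 < μ) (hA : 1 ≤ μ * Real.log T ^ 2)
    (hharm : ∀ (A : ℝ) (h : ℂ → ℂ), 1 ≤ A → Differentiable ℂ h →
    (∀ ζ : ℂ, 0 < ζ.re → ‖ζ‖ < 40 → h ζ ≠ 0) →
    (∀ ζ : ℂ, 0 ≤ ζ.re → ‖ζ‖ < 40 → ‖h ζ‖ ≤ Real.exp (A * (pf ζ.re + ηH))) →
    (∀ x y : ℝ, 1 ≤ x → x ≤ 30 → |y| ≤ 30 → ∃ s : ℝ, 3 / 4 ≤ s ∧ s ≤ 5 / 4 ∧
      Real.exp (A * ((x + s) / 2 - 1 / 4 - ηH)) ≤ ‖h (((x + s : ℝ) : ℂ) + (y : ℂ) * I)‖) →
    ∀ ζ : ℂ, 1 / 32 ≤ ζ.re → ‖ζ‖ ≤ 8 →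
      ‖logDeriv h ζ - (A / 2 : ℝ)‖ ≤ κ3 * A ∧
      Real.exp (A * (ζ.re / 2 - 1 / 4 - κ3)) ≤ ‖h ζ‖ ∧
      ‖h ζ‖ ≤ Real.exp (A * (ζ.re / 2 - 1 / 4 + κ3)))
    (hη : 0 < η) (hηs : 41 * η ≤ ηH / 2) (hKc : 0 < Kc)
    (hKL : 1600 * Kc * (μ * Real.log T) ≤ Real.log T * (ηH / 2))
    (hup : ∀ x y : ℝ, 0 ≤ x → |y - t| ≤ 60 * (μ * Real.log T) →
        ‖H ((x : ℂ) + (y : ℂ) * I)‖ ≤ g *
          Real.exp (μ * Real.log T ^ 2 * pf (x / (μ * Real.log T)) +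
            η * (μ * Real.log T ^ 2 + Real.log T * x) + Kc * x ^ 2))
    (hlo : ∀ x y : ℝ, μ * Real.log T ≤ x → x ≤ 30 * (μ * Real.log T) →
        |y - t| ≤ 30 * (μ * Real.log T) →
        ∃ s : ℝ, 3 / 4 * (μ * Real.log T) ≤ s ∧ s ≤ 5 / 4 * (μ * Real.log T) ∧
          g * Real.exp (Real.log T * (x + s) / 2 - (1 / 4 + ηH) * (μ * Real.log T ^ 2)) ≤
            ‖H (((x + s : ℝ) : ℂ) + (y : ℂ) * I)‖)
    (hz : ∀ z : ℂ, H z = 0 → ‖z - (t : ℂ) * I‖ < 40 * (μ * Real.log T) → z.re = 0) :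
    ∀ z : ℂ, μ * Real.log T / 32 ≤ z.re → ‖z - (t : ℂ) * I‖ ≤ 8 * (μ * Real.log T) →
      ‖logDeriv H z - (Real.log T / 2 : ℝ)‖ ≤ κ3 * Real.log T ∧
      g * Real.exp (Real.log T * z.re / 2 - (1 / 4 + κ3) * (μ * Real.log T ^ 2)) ≤ ‖H z‖ ∧
      ‖H z‖ ≤ g * Real.exp (Real.log T * z.re / 2 - (1 / 4 - κ3) * (μ * Real.log T ^ 2)) := by
  set L := Real.log T with hLdef
  set Δ := μ * L with hΔdef
  set A := μ * L ^ 2 with hAdef
  have hΔ : 0 < Δ := mul_pos hμ hL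
  have hAΔ : A = Δ * L := by rw [hAdef, hΔdef]; ring
  have hAp : 0 < A := by linarith
  -- zero-free
  have c1 : ∀ ζ : ℂ, 0 < ζ.re → ‖ζ‖ < 40 → hs H t Δ g ζ ≠ 0 := by
    intro ζ h1 h2 h0
    have hgc : (g : ℂ) ≠ 0 := by exact_mod_cast hg.ne'
    have h3 : H ((t : ℂ) * I + (Δ : ℂ) * ζ) = 0 := by
      rcases div_eq_zero_iff.mp h0 with h | h
      · exact h
      · exact absurd h hgc
    have h4 : ‖(t : ℂ) * I + (Δ : ℂ) * ζ - (t : ℂ) * I‖ < 40 * Δ := by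
      rw [add_sub_cancel_left, norm_mul, Complex.norm_real, Real.norm_eq_abs, abs_of_pos hΔ]
      nlinarith
    have h5 := hz _ h3 h4
    rw [pt_eq] at h5
    have h6 : (((Δ * ζ.re : ℝ) : ℂ) + ((t + Δ * ζ.im : ℝ) : ℂ) * I).re = Δ * ζ.re := by
      rw [Complex.add_re, Complex.ofReal_re, Complex.re_ofReal_mul, Complex.I_re, mul_zero, add_zero]
    rw [h6] at h5
    have h7 := mul_pos hΔ h1
    linarith
  -- upper bound
  have c2 : ∀ ζ : ℂ, 0 ≤ ζ.re → ‖ζ‖ < 40 → ‖hs H t Δ g ζ‖ ≤ Real.exp (A * (pf ζ.re + ηH)) := by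
    intro ζ h1 h2
    have hre : ζ.re ≤ 40 := (Complex.re_le_norm ζ).trans h2.le
    have him : |ζ.im| ≤ 40 := (Complex.abs_im_le_norm ζ).trans h2.le
    have h3 := hup (Δ * ζ.re) (t + Δ * ζ.im) (by positivity) (by
      rw [add_sub_cancel_left, abs_mul, abs_of_pos hΔ]
      nlinarith)
    rw [← pt_eq, mul_div_cancel_left₀ _ hΔ.ne'] at h3
    rw [hs_norm hg, div_le_iff₀ hg, mul_comm _ g]
    refine h3.trans (mul_le_mul_of_nonneg_left (Real.exp_le_exp.mpr ?_) hg.le)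
    have e1 : η * (A + L * (Δ * ζ.re)) ≤ A * (ηH / 2) := by
      have e2 : A + L * (Δ * ζ.re) ≤ 41 * A := by
        rw [hAΔ]
        have : 0 < Δ * L := mul_pos hΔ hL
        nlinarith
      have e3 : η * (A + L * (Δ * ζ.re)) ≤ η * (41 * A) := mul_le_mul_of_nonneg_left e2 hη.le
      nlinarith
    have e4 : Kc * (Δ * ζ.re) ^ 2 ≤ A * (ηH / 2) := by
      have e5 : ζ.re ^ 2 ≤ 1600 := by nlinarith
      have e6 : Kc * (Δ * ζ.re) ^ 2 ≤ Kc * (Δ ^ 2 * 1600) := by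
        apply mul_le_mul_of_nonneg_left _ hKc.le
        rw [mul_pow]
        exact mul_le_mul_of_nonneg_left e5 (sq_nonneg _)
      have e7 : Δ * (1600 * Kc * Δ) ≤ Δ * (L * (ηH / 2)) := mul_le_mul_of_nonneg_left hKL hΔ.le
      rw [hAΔ]
      nlinarith
    have e8 : A * (pf ζ.re + ηH) = A * pf ζ.re + A * (ηH / 2) + A * (ηH / 2) := by ring
    rw [e8]
    linarith
  -- lower bound
  have c3 : ∀ x y : ℝ, 1 ≤ x → x ≤ 30 → |y| ≤ 30 → ∃ s : ℝ, 3 / 4 ≤ s ∧ s ≤ 5 / 4 ∧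
      Real.exp (A * ((x + s) / 2 - 1 / 4 - ηH)) ≤
        ‖hs H t Δ g (((x + s : ℝ) : ℂ) + (y : ℂ) * I)‖ := by
    intro x y h1 h2 h3
    obtain ⟨s, s1, s2, s3⟩ := hlo (Δ * x) (t + Δ * y) (by nlinarith) (by nlinarith) (by
      rw [add_sub_cancel_left, abs_mul, abs_of_pos hΔ]
      nlinarith)
    refine ⟨s / Δ, ?_, ?_, ?_⟩
    · rw [le_div_iff₀ hΔ]; exact s1
    · rw [div_le_iff₀ hΔ]; exact s2
    · rw [hs_norm hg, le_div_iff₀ hg, mul_comm _ g]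
      have e1 : (t : ℂ) * I + (Δ : ℂ) * (((x + s / Δ : ℝ) : ℂ) + (y : ℂ) * I) =
          ((Δ * x + s : ℝ) : ℂ) + ((t + Δ * y : ℝ) : ℂ) * I := by
        have hc : (Δ : ℂ) ≠ 0 := by exact_mod_cast hΔ.ne'
        push_cast
        field_simp
        ring
      rw [e1]
      refine le_trans (le_of_eq ?_) s3
      congr 2
      rw [hAΔ]
      field_simp
      ring
  intro z hz1 hz2
  have m1 : (1 : ℝ) / 32 ≤ ((z - (t : ℂ) * I) / (Δ : ℂ)).re := by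
    rw [sc_re, le_div_iff₀ hΔ]
    linarith
  have m2 : ‖(z - (t : ℂ) * I) / (Δ : ℂ)‖ ≤ 8 := by
    rw [sc_norm hΔ, div_le_iff₀ hΔ]
    exact hz2
  obtain ⟨r1, r2, r3⟩ := hharm A (hs H t Δ g) hA (hs_diff hH) c1 c2 c3 _ m1 m2
  rw [hs_norm hg, sc_pt hΔ, sc_re] at r2 r3
  rw [hs_ld hH hg, sc_pt hΔ] at r1
  refine ⟨?_, ?_, ?_⟩
  · have e1 : (Δ : ℂ) * logDeriv H z - ((A / 2 : ℝ) : ℂ) =
        (Δ : ℂ) * (logDeriv H z - ((L / 2 : ℝ) : ℂ)) := by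
      rw [hAΔ]
      push_cast
      ring
    rw [e1, norm_mul, Complex.norm_real, Real.norm_eq_abs, abs_of_pos hΔ, hAΔ] at r1
    have e2 : Δ * ‖logDeriv H z - ((L / 2 : ℝ) : ℂ)‖ ≤ Δ * (κ3 * L) := by
      refine r1.trans (le_of_eq ?_)
      ring
    exact le_of_mul_le_mul_left e2 hΔ
  · rw [le_div_iff₀ hg] at r2
    refine le_trans (le_of_eq ?_) r2
    rw [mul_comm g]
    congr 2
    rw [hAΔ]
    field_simp
    ring
  · rw [div_le_iff₀ hg] at r3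
    refine r3.trans (le_of_eq ?_)
    rw [mul_comm g]
    congr 2
    rw [hAΔ]
    field_simp
    ring

/-- windows where all zeros of the backward heat flow are on the line are regular -/
theorem ph (h1 : S_UH) (h2 : S_LH) (h3 : S_HARM) : S_PH := by
  obtain ⟨A', -, -, -, -, -, -, -, k, -⟩ := far_data
  obtain ⟨δa, Kc, hδa, hKc, ha⟩ := h1
  obtain ⟨δb, hδb, hb⟩ := h2
  refine ⟨min (min δa δb) 4, Kc, lt_min (lt_min hδa hδb) (by norm_num), hKc, ?_⟩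
  intro κ3 η hκ3 hη
  obtain ⟨ηH, hηH, hharm⟩ := h3 κ3 hκ3
  have hη1 : 0 < min η (ηH / 100) := lt_min hη (by positivity)
  obtain ⟨κa, hκa, ha1⟩ := ha (min η (ηH / 100)) hη1
  obtain ⟨κb, hκb, hb1⟩ := hb ηH hηH
  refine ⟨min (min κa κb) 1, lt_min (lt_min hκa hκb) one_pos, ?_⟩
  intro κ hκ hκ0 A1 hA1
  have hκa' : κ ≤ κa := hκ0.trans ((min_le_left _ _).trans (min_le_left _ _))
  have hκb' : κ ≤ κb := hκ0.trans ((min_le_left _ _).trans (min_le_right _ _))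
  have hκ1 : κ ≤ 1 := hκ0.trans (min_le_right _ _)
  obtain ⟨Aa, Ta, hAa, hTa, ha2⟩ := ha1 κ hκ hκa' A1 hA1
  obtain ⟨Ab, Tb, hAb, hTb, hb2⟩ := hb1 κ hκ hκb' A1 hA1
  obtain ⟨Tc, hTc, hc⟩ := log_big (1600 * Kc * 4 / (ηH / 2))
  refine ⟨max (max Aa Ab) A1, max (max Ta Tb) Tc, hA1.trans (le_max_right _ _),
    hTc.trans (le_max_right _ _), ?_⟩
  intro T t μ hT ht1 ht2 hR hμ hA hδ hRW
  have bTa : Ta ≤ T := ((le_max_left _ _).trans (le_max_left _ _)).trans hT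
  have bTb : Tb ≤ T := ((le_max_right _ _).trans (le_max_left _ _)).trans hT
  have bTc : Tc ≤ T := (le_max_right _ _).trans hT
  have bAa : Aa ≤ μ * Real.log T ^ 2 := ((le_max_left _ _).trans (le_max_left _ _)).trans hA
  have bAb : Ab ≤ μ * Real.log T ^ 2 := ((le_max_right _ _).trans (le_max_left _ _)).trans hA
  have bA1 : A1 ≤ μ * Real.log T ^ 2 := (le_max_right _ _).trans hA
  have bδa : μ * Real.log T ≤ δa := hδ.trans ((min_le_left _ _).trans (min_le_left _ _))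
  have bδb : μ * Real.log T ≤ δb := hδ.trans ((min_le_left _ _).trans (min_le_right _ _))
  have bδ4 : μ * Real.log T ≤ 4 := hδ.trans (min_le_right _ _)
  have hT10 : 10 ≤ T := hTa.trans bTa
  have hL : 0 < Real.log T := Real.log_pos (by linarith)
  have hΔ : 0 < μ * Real.log T := mul_pos hμ hL
  have hup := ha2 T t μ bTa ht1 ht2 hR hμ bAa bδa
  have hlo := hb2 T t μ bTb ht1 ht2 hR hμ bAb bδb
  -- the size is positive
  have hy0 : 0 < A1 / Real.log T := by positivity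
  have hM : 1 ≤ 1 / κ := by
    rw [le_div_iff₀ hκ]
    linarith
  have hmem : ((μ * Real.log T : ℝ) : ℂ) + (t : ℂ) * I ∈ Kt t (A1 / Real.log T) 4 (1 / κ) := by
    refine ⟨?_, ?_, ?_⟩
    · have e : (((μ * Real.log T : ℝ) : ℂ) + (t : ℂ) * I).re = μ * Real.log T := by simp
      rw [e, div_le_iff₀ hL]
      refine bA1.trans (le_of_eq ?_)
      ring
    · have e : (((μ * Real.log T : ℝ) : ℂ) + (t : ℂ) * I).re = μ * Real.log T := by simp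
      rw [e]
      exact bδ4
    · have e : (((μ * Real.log T : ℝ) : ℂ) + (t : ℂ) * I).re = μ * Real.log T := by simp
      have e' : (((μ * Real.log T : ℝ) : ℂ) + (t : ℂ) * I).im = t := by simp
      rw [e, e', sub_self, abs_zero]
      positivity
  have hYne : Yz (((μ * Real.log T : ℝ) : ℂ) + (t : ℂ) * I) ≠ 0 := cone_ne hy0 hM hR.cf hmem
  have hG : 0 < Gm T t μ := by
    unfold Gm
    exact mul_pos (norm_pos_iff.mpr (F_ne hYne)) (Real.exp_pos _)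
  have hd : Differentiable ℂ (LL gk (-μ)) := k.differentiable (-μ)
  have hKL : 1600 * Kc * (μ * Real.log T) ≤ Real.log T * (ηH / 2) := by
    have e1 := hc T bTc
    rw [div_le_iff₀ (by positivity)] at e1
    refine le_trans ?_ e1
    exact mul_le_mul_of_nonneg_left bδ4 (by positivity)
  have hmain := core (κ3 := κ3) hd hG hL hμ (hAa.trans bAa) hharm hη1 (by
    have := min_le_right η (ηH / 100)
    linarith) hKc hKL hup hlo hRW
  exact {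
    Γp := hG
    ne := by
      intro z hz1 hz2 h0
      have h5 := hRW z h0 (by linarith)
      have h6 : 0 < μ * Real.log T / 32 := by positivity
      linarith
    ld := fun z hz1 hz2 => (hmain z hz1 hz2).1
    lo := fun z hz1 hz2 => (hmain z hz1 hz2).2.1
    hi := fun z hz1 hz2 => (hmain z hz1 hz2).2.2
    up := by
      intro x y hx hy
      refine (hup x y hx hy).trans (mul_le_mul_of_nonneg_left (Real.exp_le_exp.mpr ?_) hG.le)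
      have e1 : min η (ηH / 100) * (μ * Real.log T ^ 2 + Real.log T * x) ≤
          η * (μ * Real.log T ^ 2 + Real.log T * x) :=
        mul_le_mul_of_nonneg_right (min_le_left _ _) (by positivity)
      linarith }

end Pool.Agent.H551.HN
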